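import Pool.Agent.E8helper77.DC.Good

/-!
# A greedy algorithm for fractional domination

In each round a vertex is picked whose closed neighbourhood contains a large part of the current
weight, where the weight of `v` is the excess of the number of rounds over `k` times the number of
rounds in which a vertex close to `v` was picked.
-/

set_option autoImplicit false

namespace Pool.Agent.E8helper77.DC

open Pool.Agent.Y600.DC

/-- equal or adjacent -/
def cl (A : List (List Bool)) (v u : ℕ) : Bool := decide (v = u) || (A.getD v []).getD u false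

/-- number of picks close to `v` -/
def cn (A : List (List Bool)) (s : List ℕ) (v : ℕ) : ℕ := (s.filter (fun u => cl A v u)).length

/-- weight of `v` -/
def wt (A : List (List Bool)) (k : ℕ) (s : List ℕ) (v : ℕ) : ℕ := s.length - k * cn A s v

/-- weight of the vertices close to `u` -/
def ld (A : List (List Bool)) (k : ℕ) (s : List ℕ) (u : ℕ) : ℕ :=
  (((List.range A.length).filter (fun v => cl A v u)).map (fun v => wt A k s v)).sum

/-- total weight -/
def tot (A : List (List Bool)) (k : ℕ) (s : List ℕ) : ℕ :=
  ((List.range A.length).map (fun v => wt A k s v)).sum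

/-- the next pick -/
def pk (A : List (List Bool)) (k : ℕ) (s : List ℕ) : ℕ :=
  ((List.range A.length).filter (fun u => decide (tot A k s ≤ k * ld A k s u))).head?.getD 0

/-- the picks after `t` rounds -/
def run (A : List (List Bool)) (k : ℕ) (t : ℕ) : List ℕ :=
  (List.range t).foldl (fun s _ => pk A k s :: s) []

/-- the number of rounds -/
def rds (A : List (List Bool)) : ℕ := A.length * A.length * A.length * A.length * A.length + 1

/-- the algorithm -/
def alg (p : List (List Bool) × ℕ) : Bool :=
  decide (p.1.length ≤ p.2) || (List.range p.1.length).all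
    (fun v => decide (rds p.1 < (p.2 + 1) * cn p.1 (run p.1 p.2 (rds p.1)) v))

variable {A : List (List Bool)} {k : ℕ}

theorem run_succ (t : ℕ) : run A k (t + 1) = pk A k (run A k t) :: run A k t := by
  unfold run
  rw [List.range_succ, List.foldl_append]
  rfl

theorem run_zero : run A k 0 = [] := rfl

theorem run_length (t : ℕ) : (run A k t).length = t := by
  induction t with
  | zero => rfl
  | succ t ih => rw [run_succ, List.length_cons, ih]

theorem pk_lt (hA : 0 < A.length) (s : List ℕ) : pk A k s < A.length := by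
  unfold pk
  cases h : ((List.range A.length).filter (fun u => decide (tot A k s ≤ k * ld A k s u))).head? with
  | none => simpa using hA
  | some u =>
    have := List.mem_of_head? h
    rw [List.mem_filter, List.mem_range] at this
    simpa using this.1

theorem pk_spec (s : List ℕ) (h : ∃ u < A.length, tot A k s ≤ k * ld A k s u) :
    tot A k s ≤ k * ld A k s (pk A k s) := by
  unfold pk
  cases h1 : ((List.range A.length).filter (fun u => decide (tot A k s ≤ k * ld A k s u))).head? with
  | none =>
    rw [List.head?_eq_none_iff, List.filter_eq_nil_iff] at h1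
    obtain ⟨u, hu, h⟩ := h
    exact absurd (decide_eq_true h) (h1 u (List.mem_range.2 hu))
  | some u =>
    have := List.mem_of_head? h1
    rw [List.mem_filter] at this
    simpa using this.2

theorem run_lt (hA : 0 < A.length) (t : ℕ) : ∀ u ∈ run A k t, u < A.length := by
  induction t with
  | zero => intro u hu; rw [run_zero] at hu; simp at hu
  | succ t ih =>
    intro u hu
    rw [run_succ, List.mem_cons] at hu
    rcases hu with rfl | hu
    · exact pk_lt hA _
    · exact ih u hu

theorem sum_range_list (n : ℕ) (f : ℕ → ℕ) :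
    ((List.range n).map f).sum = ∑ v ∈ Finset.range n, f v := by
  induction n with
  | zero => rfl
  | succ n ih => rw [List.range_succ, List.map_append, List.sum_append, ih, Finset.sum_range_succ]; simp

theorem sum_range_filter (n : ℕ) (f : ℕ → ℕ) (p : ℕ → Bool) :
    (((List.range n).filter p).map f).sum = ∑ v ∈ Finset.range n, if p v then f v else 0 := by
  induction n with
  | zero => rfl
  | succ n ih =>
    rw [List.range_succ, List.filter_append, List.map_append, List.sum_append, ih,
      Finset.sum_range_succ]
    cases h : p n <;> simp [h]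

theorem tot_eq (s : List ℕ) : tot A k s = ∑ v ∈ Finset.range A.length, wt A k s v :=
  sum_range_list _ _

theorem ld_eq (s : List ℕ) (u : ℕ) :
    ld A k s u = ∑ v ∈ Finset.range A.length, if cl A v u then wt A k s v else 0 :=
  sum_range_filter _ _ _

theorem cn_cons (s : List ℕ) (u v : ℕ) : cn A (u :: s) v = cn A s v + if cl A v u then 1 else 0 := by
  unfold cn
  cases h : cl A v u <;> simp [h]

theorem step_arith (L c k : ℕ) (b : Bool) :
    (L + 1 - k * (c + if b then 1 else 0)) ^ 2 + 2 * k * (if b then (L - k * c) else 0) ≤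
      (L - k * c) ^ 2 + 2 * (L - k * c) + (k ^ 2 + 1) := by
  cases b with
  | false =>
    simp only [Bool.false_eq_true, if_false, Nat.add_zero, Nat.mul_zero]
    have h : L + 1 - k * c ≤ L - k * c + 1 := by omega
    have := Nat.pow_le_pow_left h 2
    nlinarith
  | true =>
    simp only [if_true]
    have e : k * (c + 1) = k * c + k := by ring
    rw [e]
    generalize k * c = x
    rcases Nat.lt_or_ge L x with h | h
    · have h1 : L + 1 - (x + k) = 0 := by omega
      have h2 : L - x = 0 := by omega
      rw [h1, h2]
      simp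
    · obtain ⟨w, rfl⟩ := Nat.exists_eq_add_of_le h
      have h2 : x + w - x = w := by omega
      rw [h2]
      rcases Nat.lt_or_ge (w + 1) k with h3 | h3
      · have h1 : x + w + 1 - (x + k) = 0 := by omega
        rw [h1]
        zify
        nlinarith [sq_nonneg ((w : ℤ) - k)]
      · obtain ⟨y, hy⟩ := Nat.exists_eq_add_of_le h3
        have h1 : x + w + 1 - (x + k) = y := by omega
        rw [h1]
        have h4 : (w : ℤ) = k + y - 1 := by
          have : ((w + 1 : ℕ) : ℤ) = ((k + y : ℕ) : ℤ) := by rw [hy]
          push_cast at this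
          linarith
        zify
        rw [h4]
        have : (0 : ℤ) ≤ k := Int.natCast_nonneg k
        nlinarith

/-- the potential -/
def pot (A : List (List Bool)) (k : ℕ) (s : List ℕ) : ℕ :=
  ∑ v ∈ Finset.range A.length, wt A k s v ^ 2

theorem pot_step (s : List ℕ) (u : ℕ) (h : tot A k s ≤ k * ld A k s u) :
    pot A k (u :: s) ≤ pot A k s + A.length * (k ^ 2 + 1) := by
  have h1 : ∀ v ∈ Finset.range A.length, wt A k (u :: s) v ^ 2 +
      2 * k * (if cl A v u then wt A k s v else 0) ≤
      wt A k s v ^ 2 + 2 * wt A k s v + (k ^ 2 + 1) := by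
    intro v _
    have := step_arith s.length (cn A s v) k (cl A v u)
    unfold wt
    rw [List.length_cons, cn_cons]
    exact this
  have h2 := Finset.sum_le_sum h1
  rw [Finset.sum_add_distrib, Finset.sum_add_distrib, Finset.sum_add_distrib, ← Finset.mul_sum,
    ← Finset.mul_sum, ← ld_eq, ← tot_eq, Finset.sum_const, Finset.card_range, smul_eq_mul] at h2
  unfold pot
  nlinarith

/-- There is a good pick, if there is a small dominating set. -/
theorem exists_pick (s : List ℕ) (D : Finset ℕ) (hD : ∀ u ∈ D, u < A.length) (hk : D.card ≤ k)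
    (hdom : ∀ v < A.length, ∃ u ∈ D, cl A v u = true) (hA : 0 < A.length) :
    ∃ u < A.length, tot A k s ≤ k * ld A k s u := by
  by_contra hcon
  push Not at hcon
  have hne : D.Nonempty := by
    obtain ⟨u, hu, -⟩ := hdom 0 hA
    exact ⟨u, hu⟩
  have h1 : ∑ u ∈ D, k * ld A k s u < ∑ _u ∈ D, tot A k s :=
    Finset.sum_lt_sum_of_nonempty hne fun u hu => hcon u (hD u hu)
  rw [Finset.sum_const, smul_eq_mul, ← Finset.mul_sum] at h1
  have h2 : tot A k s ≤ ∑ u ∈ D, ld A k s u := by
    simp_rw [ld_eq]
    rw [Finset.sum_comm, tot_eq]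
    refine Finset.sum_le_sum fun v hv => ?_
    obtain ⟨u, hu, hc⟩ := hdom v (Finset.mem_range.1 hv)
    have := Finset.single_le_sum (f := fun u => if cl A v u then wt A k s v else 0)
      (fun _ _ => Nat.zero_le _) hu
    simp only [hc, if_true] at this
    exact this
  have h3 : D.card * tot A k s ≤ k * tot A k s := Nat.mul_le_mul_right _ hk
  have h4 : k * tot A k s ≤ k * ∑ u ∈ D, ld A k s u := Nat.mul_le_mul_left _ h2
  omega

theorem pot_run (D : Finset ℕ) (hD : ∀ u ∈ D, u < A.length) (hk : D.card ≤ k)
    (hdom : ∀ v < A.length, ∃ u ∈ D, cl A v u = true) (hA : 0 < A.length) (t : ℕ) :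
    pot A k (run A k t) ≤ t * (A.length * (k ^ 2 + 1)) := by
  induction t with
  | zero =>
    rw [run_zero, Nat.zero_mul]
    refine (Finset.sum_eq_zero fun v _ => ?_).le
    simp [wt]
  | succ t ih =>
    rw [run_succ]
    have := pot_step (run A k t) _ (pk_spec _ (exists_pick (run A k t) D hD hk hdom hA))
    rw [Nat.succ_mul]
    omega

/-- Completeness. -/
theorem complete (D : Finset ℕ) (hD : ∀ u ∈ D, u < A.length) (hk : D.card ≤ k)
    (hdom : ∀ v < A.length, ∃ u ∈ D, cl A v u = true) (hkn : k < A.length) (v : ℕ)
    (hv : v < A.length) : rds A < (k + 1) * cn A (run A k (rds A)) v := by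
  by_contra hcon
  push Not at hcon
  set T := rds A with hT
  set n := A.length with hn
  set c := cn A (run A k T) v with hc
  have h1 := pot_run D hD hk hdom (by omega) T
  have h2 : wt A k (run A k T) v ^ 2 ≤ T * (n * (k ^ 2 + 1)) :=
    (Finset.single_le_sum (f := fun v => wt A k (run A k T) v ^ 2) (fun _ _ => Nat.zero_le _)
      (Finset.mem_range.2 hv)).trans h1
  have h3 : wt A k (run A k T) v = T - k * c := by
    unfold wt
    rw [run_length]
  rw [h3] at h2
  have h4 : T ≤ (k + 1) * (T - k * c) := by
    have h5 : k * c ≤ T := le_trans (Nat.mul_le_mul_right _ (Nat.le_succ k)) hcon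
    obtain ⟨d, hd⟩ := Nat.exists_eq_add_of_le h5
    have h6 : T - k * c = d := by omega
    rw [h6]
    have h7 : (k + 1) * c = k * c + c := by ring
    have h8 : c ≤ d := by omega
    have h9 : k * c ≤ k * d := Nat.mul_le_mul_left _ h8
    have h10 : (k + 1) * d = k * d + d := by ring
    omega
  have h5 : T ^ 2 ≤ (k + 1) ^ 2 * (T * (n * (k ^ 2 + 1))) := by
    calc T ^ 2 ≤ ((k + 1) * (T - k * c)) ^ 2 := Nat.pow_le_pow_left h4 2
      _ = (k + 1) ^ 2 * (T - k * c) ^ 2 := by ring
      _ ≤ (k + 1) ^ 2 * (T * (n * (k ^ 2 + 1))) := Nat.mul_le_mul_left _ h2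
  have hT0 : 0 < T := Nat.succ_pos _
  have h6 : T ≤ (k + 1) ^ 2 * (n * (k ^ 2 + 1)) := by
    have : T * T ≤ T * ((k + 1) ^ 2 * (n * (k ^ 2 + 1))) := by nlinarith
    exact Nat.le_of_mul_le_mul_left this hT0
  have h7 : (k + 1) ^ 2 * (n * (k ^ 2 + 1)) ≤ n ^ 2 * (n * n ^ 2) := by
    have e1 : (k + 1) ^ 2 ≤ n ^ 2 := Nat.pow_le_pow_left hkn 2
    have e2 : k ^ 2 + 1 ≤ n ^ 2 := by nlinarith
    exact Nat.mul_le_mul e1 (Nat.mul_le_mul_left _ e2)
  have h8 : T = n ^ 2 * (n * n ^ 2) + 1 := by
    rw [hT, hn]
    unfold rds
    ring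
  omega

end Pool.Agent.E8helper77.DC
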