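import Pool.Agent.Y600.DC.NB

/-!
# Two-colourings of balanced hypergraphs (Berge)
-/

set_option autoImplicit false

namespace Pool.Agent.E8helper77.DC

open Pool.Agent.Y600.DC

variable {I V : Type}

/-- the trace on `W` of some edge is `{x, y}` -/
def Link (R : I → V → Prop) (W : Finset V) (x y : V) : Prop :=
  ∃ i, ∀ z ∈ W, (R i z ↔ z = x ∨ z = y)

theorem bool_aux : ∀ b b' d : Bool, b ≠ b' → d ≠ b' → d = b := by decide

theorem Link.symm {R : I → V → Prop} {W : Finset V} {x y : V} (h : Link R W x y) : Link R W y x := by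
  obtain ⟨i, hi⟩ := h
  exact ⟨i, fun z hz => (hi z hz).trans or_comm⟩

theorem no_cycle {R : I → V → Prop} (hR : RelBalanced R) (W : Finset V) (g : ℕ → V) (m : ℕ)
    (ho : Odd m) (hm : 3 ≤ m) (hW : ∀ i < m, g i ∈ W)
    (hinj : ∀ i j, i < m → j < m → g i = g j → i = j)
    (hl : ∀ i, i + 1 < m → Link R W (g i) (g (i + 1))) (hlast : Link R W (g (m - 1)) (g 0)) :
    False := by
  have : NeZero m := ⟨by omega⟩
  have hv : ∀ i : ZMod m, i.val < m := fun i => ZMod.val_lt i
  have hval : ∀ i : ZMod m, (i + 1).val = if i.val = m - 1 then 0 else i.val + 1 := by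
    intro i
    have : Fact (1 < m) := ⟨by omega⟩
    rw [ZMod.val_add, ZMod.val_one]
    have := hv i
    split_ifs with h5
    · rw [h5, Nat.sub_add_cancel (by omega), Nat.mod_self]
    · exact Nat.mod_eq_of_lt (by omega)
  have key : ∀ i : ZMod m, Link R W (g i.val) (g (i + 1).val) := by
    intro i
    rw [hval i]
    have := hv i
    split_ifs with h5
    · rw [h5]
      exact hlast
    · exact hl _ (by omega)
  choose e he using key
  refine hR m ho hm e (fun i => g i.val)
    (fun i j h => ZMod.val_injective _ (hinj _ _ (hv i) (hv j) h)) fun i j => ?_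
  rw [he i _ (hW _ (hv j))]
  constructor
  · rintro (h | h)
    · exact Or.inl (ZMod.val_injective _ (hinj _ _ (hv _) (hv _) h))
    · exact Or.inr (ZMod.val_injective _ (hinj _ _ (hv _) (hv _) h))
  · rintro (rfl | rfl)
    · exact Or.inl rfl
    · exact Or.inr rfl

/-- **Berge.** A balanced hypergraph has a two-colouring, on each set of vertices. -/
theorem bicol : S_BICOL := by
  intro I V R hR W
  classical
  induction hn : W.card using Nat.strong_induction_on generalizing W with
  | _ n ih =>
  subst hn
  by_contra hcon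
  -- colourings of the smaller sets
  have h1 : ∀ w ∈ W, ∃ c : V → Bool, ∀ i, (∃ x ∈ W.erase w, ∃ y ∈ W.erase w, x ≠ y ∧ R i x ∧ R i y) →
      ∀ b : Bool, ∃ x ∈ W.erase w, R i x ∧ c x = b := fun w hw =>
    ih _ (Finset.card_erase_lt_of_mem hw) (W.erase w) rfl
  choose! c hc using h1
  have key : ∀ w ∈ W, ∀ b : Bool, ∃ y ∈ W, y ≠ w ∧ c w y = b ∧ Link R W w y := by
    intro w hw b
    have h2 : ¬ ∀ i, (∃ x ∈ W, ∃ y ∈ W, x ≠ y ∧ R i x ∧ R i y) →
        ∀ b' : Bool, ∃ x ∈ W, R i x ∧ Function.update (c w) w b x = b' := fun h => hcon ⟨_, h⟩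
    push Not at h2
    obtain ⟨i, ⟨x, hx, y, hy, hxy, hix, hiy⟩, b', hb'⟩ := h2
    have h3 : ∀ x ∈ W.erase w, ∀ y ∈ W.erase w, R i x → R i y → x = y := by
      intro x hx y hy hix hiy
      by_contra hne
      obtain ⟨z, hz, hiz, hcz⟩ := hc w hw i ⟨x, hx, y, hy, hne, hix, hiy⟩ b'
      refine hb' z (Finset.mem_of_mem_erase hz) hiz ?_
      rw [Function.update_of_ne (Finset.ne_of_mem_erase hz)]
      exact hcz
    obtain ⟨y', hy', hne, hiy', hiw⟩ : ∃ y' ∈ W, y' ≠ w ∧ R i y' ∧ R i w := by
      by_cases hxw : x = w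
      · subst hxw
        exact ⟨y, hy, hxy.symm, hiy, hix⟩
      · by_cases hyw : y = w
        · subst hyw
          exact ⟨x, hx, hxw, hix, hiy⟩
        · exact absurd (h3 x (Finset.mem_erase.2 ⟨hxw, hx⟩) y (Finset.mem_erase.2 ⟨hyw, hy⟩) hix hiy)
            hxy
    refine ⟨y', hy', hne, ?_, i, fun z hz => ⟨fun h => ?_, ?_⟩⟩
    · have e1 := hb' w hw hiw
      have e2 := hb' y' hy' hiy'
      rw [Function.update_self] at e1
      rw [Function.update_of_ne hne] at e2
      exact bool_aux _ _ _ e1 e2
    · by_cases hzw : z = w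
      · exact Or.inl hzw
      · exact Or.inr (h3 z (Finset.mem_erase.2 ⟨hzw, hz⟩) y' (Finset.mem_erase.2 ⟨hne, hy'⟩) h hiy')
    · rintro (rfl | rfl)
      · exact hiw
      · exact hiy'
  -- the small colourings are proper
  have prop : ∀ w ∈ W, ∀ x ∈ W, ∀ y ∈ W, x ≠ w → y ≠ w → x ≠ y → Link R W x y → c w y = !c w x := by
    intro w hw x hx y hy hxw hyw hxy ⟨i, hi⟩
    obtain ⟨z, hz, hiz, hcz⟩ := hc w hw i ⟨x, Finset.mem_erase.2 ⟨hxw, hx⟩, y,
      Finset.mem_erase.2 ⟨hyw, hy⟩, hxy, (hi x hx).2 (Or.inl rfl), (hi y hy).2 (Or.inr rfl)⟩ (!c w x)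
    rcases (hi z (Finset.mem_of_mem_erase hz)).1 hiz with rfl | rfl
    · cases h : c w z <;> simp [h] at hcz
    · exact hcz
  have hne : W.Nonempty := by
    by_contra h
    rw [Finset.not_nonempty_iff_eq_empty] at h
    subst h
    exact hcon ⟨fun _ => true, fun i ⟨x, hx, _⟩ => by simp at hx⟩
  -- a longest path
  let P : ℕ → Prop := fun L => ∃ f : ℕ → V, (∀ i j, i ≤ L → j ≤ L → f i = f j → i = j) ∧
    (∀ i < L, Link R W (f i) (f (i + 1))) ∧ ∀ i ≤ L, f i ∈ W
  have hP0 : P 0 := by
    obtain ⟨w, hw⟩ := hne
    exact ⟨fun _ => w, fun i j hi hj _ => by omega, fun i hi => by omega, fun _ _ => hw⟩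
  have hPb : ∀ L, P L → L < W.card := by
    rintro L ⟨f, hf, -, hfW⟩
    have : (Finset.image f (Finset.range (L + 1))).card = L + 1 := by
      rw [Finset.card_image_of_injOn, Finset.card_range]
      intro i hi j hj h
      simp only [Finset.coe_range, Set.mem_Iio] at hi hj
      exact hf i j (by omega) (by omega) h
    have h2 : Finset.image f (Finset.range (L + 1)) ⊆ W := by
      intro z hz
      rw [Finset.mem_image] at hz
      obtain ⟨i, hi, rfl⟩ := hz
      rw [Finset.mem_range] at hi
      exact hfW i (by omega)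
    have := Finset.card_le_card h2
    omega
  obtain ⟨L, hL, hLmax⟩ : ∃ L, P L ∧ ∀ L', P L' → L' ≤ L := by
    refine ⟨Nat.findGreatest P W.card, Nat.findGreatest_spec (Nat.zero_le _) hP0, fun L' hL' => ?_⟩
    exact Nat.le_findGreatest (hPb L' hL').le hL'
  obtain ⟨f, hf, hfl, hfW⟩ := hL
  have hw : f 0 ∈ W := hfW 0 (Nat.zero_le _)
  have onP : ∀ y ∈ W, Link R W (f 0) y → ∃ a ≤ L, f a = y := by
    intro y hy hly
    by_contra hno
    push Not at hno
    have : P (L + 1) := by
      refine ⟨fun i => if i = 0 then y else f (i - 1), ?_, ?_, ?_⟩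
      · intro i j hi hj h
        by_cases hi0 : i = 0 <;> by_cases hj0 : j = 0
        · omega
        · simp only [hi0, hj0, if_true, if_false] at h
          exact absurd h.symm (hno _ (by omega))
        · simp only [hi0, hj0, if_true, if_false] at h
          exact absurd h (hno _ (by omega))
        · simp only [hi0, hj0, if_false] at h
          have := hf _ _ (by omega) (by omega) h
          omega
      · intro i hi
        by_cases hi0 : i = 0
        · subst hi0
          simpa using hly.symm
        · have := hfl (i - 1) (by omega)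
          rw [Nat.sub_add_cancel (by omega)] at this
          simpa [hi0] using this
      · intro i hi
        by_cases hi0 : i = 0
        · simpa [hi0] using hy
        · simpa [hi0] using hfW (i - 1) (by omega)
    have := hLmax _ this
    omega
  -- colours alternate along the path
  have alt : ∀ a, 1 ≤ a → ∀ d, a + d ≤ L → c (f 0) (f (a + d)) = (c (f 0) (f a) ^^ decide (d % 2 = 1)) := by
    intro a ha d
    induction d with
    | zero => intro _; simp
    | succ d ihd =>
      intro h
      have h2 := prop (f 0) hw (f (a + d)) (hfW _ (by omega)) (f (a + d + 1)) (hfW _ (by omega))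
        (fun h => by have := hf _ _ (by omega) (by omega) h; omega)
        (fun h => by have := hf _ _ (by omega) (by omega) h; omega)
        (fun h => by have := hf _ _ (by omega) (by omega) h; omega)
        (hfl _ (by omega))
      rw [← Nat.add_assoc, h2, ihd (by omega)]
      rcases Nat.mod_two_eq_zero_or_one d with h3 | h3
      · have : (d + 1) % 2 = 1 := by omega
        simp [h3, this]
      · have : (d + 1) % 2 = 0 := by omega
        simp [h3, this]
  -- the final contradiction
  have fin : ∀ a d, 1 ≤ a → 1 ≤ d → a + d ≤ L → c (f 0) (f (a + d)) ≠ c (f 0) (f a) →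
      Link R W (f 0) (f a) → Link R W (f 0) (f (a + d)) → False := by
    intro a d ha hd hL hcc hla hlb
    have hodd : d % 2 = 1 := by
      rw [alt a ha d hL] at hcc
      by_contra h
      simp [h] at hcc
    refine no_cycle hR W (fun i => if i ≤ d then f (a + i) else f 0) (d + 2)
      (Nat.odd_iff.2 (by omega)) (by omega) ?_ ?_ ?_ ?_
    · intro i hi
      by_cases h : i ≤ d
      · simpa [h] using hfW _ (by omega)
      · simpa [h] using hw
    · intro i j hi hj h
      by_cases h1 : i ≤ d <;> by_cases h2 : j ≤ d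
      · simp only [h1, h2, if_true] at h
        have := hf _ _ (by omega) (by omega) h
        omega
      · simp only [h1, h2, if_true, if_false] at h
        have := hf _ _ (by omega) (by omega) h
        omega
      · simp only [h1, h2, if_true, if_false] at h
        have := hf _ _ (by omega) (by omega) h
        omega
      · omega
    · intro i hi
      by_cases h : i + 1 ≤ d
      · have h' : i ≤ d := by omega
        simp only [h, h', if_true]
        exact hfl _ (by omega)
      · have h' : i = d := by omega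
        subst h'
        simp only [h, le_refl, if_true, if_false]
        exact hlb.symm
    · have e : d + 2 - 1 = d + 1 := by omega
      have e2 : ¬ d + 1 ≤ d := by omega
      simp only [e, e2, Nat.zero_le, if_true, if_false, Nat.add_zero]
      exact hla
  obtain ⟨y, hy, hyw, hcy, hly⟩ := key (f 0) hw true
  obtain ⟨z, hz, hzw, hcz, hlz⟩ := key (f 0) hw false
  obtain ⟨a, ha, rfl⟩ := onP y hy hly
  obtain ⟨b, hb, rfl⟩ := onP z hz hlz
  have ha1 : 1 ≤ a := by
    rcases Nat.eq_zero_or_pos a with h | h
    · subst h; exact absurd rfl hyw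
    · exact h
  have hb1 : 1 ≤ b := by
    rcases Nat.eq_zero_or_pos b with h | h
    · subst h; exact absurd rfl hzw
    · exact h
  rcases Nat.lt_trichotomy a b with h | h | h
  · obtain ⟨d, rfl⟩ := Nat.exists_eq_add_of_lt h
    exact fin a (d + 1) ha1 (by omega) hb (by rw [← Nat.add_assoc, hcy, hcz]; simp) hly hlz
  · subst h
    rw [hcy] at hcz
    exact absurd hcz (by simp)
  · obtain ⟨d, rfl⟩ := Nat.exists_eq_add_of_lt h
    exact fin b (d + 1) hb1 (by omega) ha (by rw [← Nat.add_assoc, hcy, hcz]; simp) hlz hly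

end Pool.Agent.E8helper77.DC
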