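import Pool.Agent.E8helper77.DC.Bicol

/-!
# Good colourings of balanced hypergraphs, and integral covers
-/

set_option autoImplicit false

namespace Pool.Agent.E8helper77.DC

open Pool.Agent.Y600.DC

/-- **Berge.** If all edges of a balanced hypergraph have at least `m` vertices then the vertices
can be coloured with `m` colours so that all edges contain all colours. -/
theorem good : S_GOOD := by
  intro I V _ _ R hR m hm hsz
  classical
  have : Fintype I := Fintype.ofFinite I
  have : Fintype V := Fintype.ofFinite V
  have : NeZero m := ⟨by omega⟩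
  -- the colours used on an edge
  let U : (V → Fin m) → I → Finset (Fin m) := fun c i =>
    Finset.univ.filter (fun b => ∃ x, R i x ∧ c x = b)
  have hU : ∀ c i b, b ∈ U c i ↔ ∃ x, R i x ∧ c x = b := fun c i b => by simp [U]
  obtain ⟨c, -, hc⟩ := Finset.exists_max_image (Finset.univ : Finset (V → Fin m))
    (fun c => ∑ i, (U c i).card) ⟨fun _ => 0, Finset.mem_univ _⟩
  refine ⟨c, fun i b => ?_⟩
  by_contra hb
  have hb' : b ∉ U c i := by rw [hU]; exact hb
  -- two vertices of the same colour
  obtain ⟨x, hx, y, hy, hxy, hcxy⟩ : ∃ x, R i x ∧ ∃ y, R i y ∧ x ≠ y ∧ c x = c y := by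
    have h1 : (Finset.univ.filter (fun x => R i x)).card = {x | R i x}.ncard := by
      rw [Set.ncard_eq_toFinset_card']
      congr 1
      ext x
      simp
    have h2 : (Finset.univ.erase b : Finset (Fin m)).card < (Finset.univ.filter (fun x => R i x)).card := by
      rw [h1, Finset.card_erase_of_mem (Finset.mem_univ _), Finset.card_univ, Fintype.card_fin]
      have := hsz i
      omega
    obtain ⟨x, hx, y, hy, hxy, h⟩ := Finset.exists_ne_map_eq_of_card_lt_of_maps_to h2
      (f := c) (fun x hx => by
        rw [Finset.mem_coe, Finset.mem_erase]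
        refine ⟨fun h => hb ⟨x, ?_, h⟩, Finset.mem_univ _⟩
        simpa using hx)
    exact ⟨x, by simpa using hx, y, by simpa using hy, hxy, h⟩
  have hqb : c x ≠ b := fun h => hb ⟨x, hx, h⟩
  -- recolour
  let q := c x
  obtain ⟨c', hc'⟩ := bicol I V R hR (Finset.univ.filter (fun z => c z = b ∨ c z = q))
  let d : V → Fin m := fun z => if c z = b ∨ c z = q then (if c' z = true then b else q) else c z
  have hdW : ∀ z, (d z = b ∨ d z = q) ↔ (c z = b ∨ c z = q) := by
    intro z
    by_cases h : c z = b ∨ c z = q
    · simp only [d, h, if_true]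
      by_cases h2 : c' z = true
      · simp [h2]
      · simp [h2]
    · simp only [d, h, if_false]
  have hdn : ∀ z, ¬ (c z = b ∨ c z = q) → d z = c z := fun z h => by simp only [d, h, if_false]
  have hmono : ∀ j, (U c j).card ≤ (U d j).card := by
    intro j
    by_cases h2 : ∃ x ∈ Finset.univ.filter (fun z => c z = b ∨ c z = q),
        ∃ y ∈ Finset.univ.filter (fun z => c z = b ∨ c z = q), x ≠ y ∧ R j x ∧ R j y
    · refine Finset.card_le_card fun a ha => ?_
      rw [hU] at ha ⊢
      obtain ⟨z, hz, hza⟩ := ha
      by_cases h3 : c z = b ∨ c z = q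
      · rcases h3 with h3 | h3
        · obtain ⟨z', hz', h4, h5⟩ := hc' j h2 true
          refine ⟨z', h4, ?_⟩
          simp only [Finset.mem_filter, Finset.mem_univ, true_and] at hz'
          simp only [d, hz', if_true, h5]
          rw [← hza, h3]
        · obtain ⟨z', hz', h4, h5⟩ := hc' j h2 false
          refine ⟨z', h4, ?_⟩
          simp only [Finset.mem_filter, Finset.mem_univ, true_and] at hz'
          simp only [d, hz', if_true, h5]
          simp only [Bool.false_eq_true, if_false]
          rw [← hza, h3]
      · exact ⟨z, hz, by rw [hdn z h3, hza]⟩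
    · -- at most one vertex of the edge is recoloured
      have h3 : ∀ z z', R j z → R j z' → (c z = b ∨ c z = q) → (c z' = b ∨ c z' = q) → z = z' := by
        intro z z' hz hz' h h'
        by_contra hne
        exact h2 ⟨z, by simp [h], z', by simp [h'], hne, hz, hz'⟩
      by_cases h4 : ∃ z, R j z ∧ (c z = b ∨ c z = q)
      · obtain ⟨z, hz, hzc⟩ := h4
        refine Finset.card_le_card_of_injOn (fun a => if a = c z then d z else a) ?_ ?_
        · intro a ha
          rw [Finset.mem_coe, hU] at ha
          obtain ⟨w, hw, hwa⟩ := ha
          rw [Finset.mem_coe, hU]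
          by_cases h5 : a = c z
          · simp only [h5, if_true]
            exact ⟨z, hz, rfl⟩
          · simp only [h5, if_false]
            refine ⟨w, hw, ?_⟩
            rw [hdn w, hwa]
            intro h6
            have := h3 w z hw hz h6 hzc
            subst this
            exact h5 hwa.symm
        · have aux : ∀ a, a ∈ U c j → a ≠ c z → a ≠ d z := by
            intro a ha hne h
            rw [hU] at ha
            obtain ⟨w, hw, hwa⟩ := ha
            have h6 : c w = b ∨ c w = q := by
              rw [hwa, h]
              exact (hdW z).2 hzc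
            have := h3 w z hw hz h6 hzc
            subst this
            exact hne hwa.symm
          intro a ha a' ha' h
          simp only at h
          by_cases h5 : a = c z <;> by_cases h6 : a' = c z
          · rw [h5, h6]
          · simp only [h5, h6, if_true, if_false] at h
            exact absurd h.symm (aux a' ha' h6)
          · simp only [h5, h6, if_true, if_false] at h
            exact absurd h (aux a ha h5)
          · simpa only [h5, h6, if_false] using h
      · refine Finset.card_le_card fun a ha => ?_
        rw [hU] at ha ⊢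
        obtain ⟨z, hz, hza⟩ := ha
        exact ⟨z, hz, by rw [hdn z (fun h => h4 ⟨z, hz, h⟩), hza]⟩
  have hstrict : (U c i).card < (U d i).card := by
    have h2 : ∃ x ∈ Finset.univ.filter (fun z => c z = b ∨ c z = q),
        ∃ y ∈ Finset.univ.filter (fun z => c z = b ∨ c z = q), x ≠ y ∧ R i x ∧ R i y :=
      ⟨x, by simp [q], y, by simp [q, hcxy], hxy, hx, hy⟩
    refine Finset.card_lt_card ⟨fun a ha => ?_, fun h => ?_⟩
    · rw [hU] at ha ⊢
      obtain ⟨z, hz, hza⟩ := ha
      by_cases h3 : c z = b ∨ c z = q
      · rcases h3 with h3 | h3
        · exact absurd ⟨z, hz, h3⟩ hb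
        · obtain ⟨z', hz', h4, h5⟩ := hc' i h2 false
          refine ⟨z', h4, ?_⟩
          simp only [Finset.mem_filter, Finset.mem_univ, true_and] at hz'
          simp only [d, hz', if_true, h5]
          simp only [Bool.false_eq_true, if_false]
          rw [← hza, h3]
      · exact ⟨z, hz, by rw [hdn z h3, hza]⟩
    · apply hb'
      apply h
      rw [hU]
      obtain ⟨z', hz', h4, h5⟩ := hc' i h2 true
      refine ⟨z', h4, ?_⟩
      simp only [Finset.mem_filter, Finset.mem_univ, true_and] at hz'
      simp only [d, hz', if_true, h5]
  have := hc d (Finset.mem_univ _)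
  have h3 : ∑ i, (U c i).card < ∑ i, (U d i).card :=
    Finset.sum_lt_sum (fun j _ => hmono j) ⟨i, Finset.mem_univ _, hstrict⟩
  omega

/-- Integral covers from fractional covers. -/
theorem round : S_ROUND := by
  intro I V _ _ R hR a m hm hsz
  classical
  -- replicate the vertices
  let V' := Σ x : V, Fin (a x)
  have hR' : RelBalanced (fun (i : I) (x : V') => R i x.1) := by
    intro r ho hr e x hx h
    refine hR r ho hr e (fun j => (x j).1) ?_ h
    intro j l hjl
    simp only at hjl
    have h1 : l = j ∨ l = j + 1 := by
      have : R (e j) (x j).1 := (h j j).2 (Or.inl rfl)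
      rw [hjl] at this
      exact (h j l).1 this
    have h2 : j = l ∨ j = l + 1 := by
      have : R (e l) (x l).1 := (h l l).2 (Or.inl rfl)
      rw [← hjl] at this
      exact (h l j).1 this
    rcases h1 with h1 | h1
    · exact h1.symm
    · rcases h2 with h2 | h2
      · exact h2
      · exfalso
        have h3 : ((2 : ℕ) : ZMod r) ≠ 0 := by
          rw [Ne, ZMod.natCast_eq_zero_iff]
          exact fun h => by have := Nat.le_of_dvd (by norm_num) h; omega
        apply h3
        push_cast
        linear_combination -h1 - h2
  obtain ⟨c, hc⟩ := good I V' (fun i x => R i x.1) hR' m hm (fun i => by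
    have h1 : {x : V' | R i x.1}.ncard = ∑ x ∈ Finset.univ.filter (fun x => R i x), a x := by
      have : {x : V' | R i x.1} = ((Finset.univ.filter (fun x => R i x)).sigma
          (fun x => (Finset.univ : Finset (Fin (a x)))) : Finset V') := by
        ext x
        rw [Finset.mem_coe, Finset.mem_sigma]
        change R i x.1 ↔ _
        simp
      rw [this, Set.ncard_coe_finset, Finset.card_sigma]
      simp
    rw [h1]
    convert hsz i)
  let D : Fin m → Finset V := fun b => (Finset.univ.filter (fun x : V' => c x = b)).image Sigma.fst
  have hsum : ∑ b, (D b).card ≤ ∑ x, a x := by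
    calc ∑ b, (D b).card ≤ ∑ b, (Finset.univ.filter (fun x : V' => c x = b)).card :=
          Finset.sum_le_sum fun b _ => Finset.card_image_le
      _ = (Finset.univ : Finset V').card :=
          (Finset.card_eq_sum_card_fiberwise (fun x _ => Finset.mem_univ _)).symm
      _ = ∑ x, a x := by
          rw [Finset.card_univ]
          change Fintype.card (Σ x : V, Fin (a x)) = _
          rw [Fintype.card_sigma]
          simp
  have : NeZero m := ⟨by omega⟩
  obtain ⟨b, -, hb⟩ := Finset.exists_min_image (Finset.univ : Finset (Fin m)) (fun b => (D b).card)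
    ⟨0, Finset.mem_univ _⟩
  refine ⟨D b, fun i => ?_, ?_⟩
  · obtain ⟨x, hx, hxb⟩ := hc i b
    exact ⟨x.1, Finset.mem_image.2 ⟨x, by simp [hxb], rfl⟩, hx⟩
  · refine le_trans ?_ hsum
    have h1 := Finset.card_nsmul_le_sum (Finset.univ : Finset (Fin m)) (fun b => (D b).card)
      (D b).card (fun b' _ => hb b' (Finset.mem_univ _))
    rw [Finset.card_univ, Fintype.card_fin, smul_eq_mul] at h1
    exact h1

/-- Closed neighbourhoods of a balanced chordal graph form a balanced family of rows. -/
theorem relBalanced_close {V : Type} [Finite V] {G : SimpleGraph V} (hc : Chordal G)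
    (hb : Balanced G) : RelBalanced (Close G) := by
  intro m ho hm e x hx h
  refine nb V G hc hb m ho hm e x ?_ hx h
  intro j l hjl
  have h1 : j = l ∨ j = l + 1 := by
    have := (h j j).2 (Or.inl rfl)
    rw [hjl] at this
    exact (h l j).1 this
  have h2 : l = j ∨ l = j + 1 := by
    have := (h l l).2 (Or.inl rfl)
    rw [← hjl] at this
    exact (h j l).1 this
  rcases h1 with h1 | h1
  · exact h1
  · rcases h2 with h2 | h2
    · exact h2.symm
    · exfalso
      have h3 : ((2 : ℕ) : ZMod m) ≠ 0 := by
        rw [Ne, ZMod.natCast_eq_zero_iff]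
        exact fun h => by have := Nat.le_of_dvd (by norm_num) h; omega
      apply h3
      push_cast
      linear_combination -h1 - h2

end Pool.Agent.E8helper77.DC
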