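import Pool.Agent.E8helper77.DC.Alg
import Pool.Agent.NPC.Dec
import Pool.Agent.H671R2.PolyAuto

/-!
# Correctness and running time of the algorithm
-/

set_option autoImplicit false

namespace Pool.Agent.E8helper77.DC

open Pool.Agent.Y600.DC Pool.Agent.NPC Pool.Agent.NPC.R671

theorem adj_length {n : ℕ} (G : SimpleGraph (Fin n)) : (adjMatrix G).length = n := by
  unfold adjMatrix
  rw [List.length_ofFn]

theorem cl_adj {n : ℕ} (G : SimpleGraph (Fin n)) (v u : Fin n) :
    cl (adjMatrix G) v.val u.val = true ↔ Close G v u := by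
  classical
  unfold cl Close adjMatrix
  simp only [Bool.or_eq_true, decide_eq_true_eq, Fin.val_inj]
  refine or_congr Iff.rfl ?_
  have h1 : (List.ofFn fun i : Fin n => List.ofFn fun j : Fin n => decide (G.Adj i j)).getD v.val [] =
      List.ofFn fun j : Fin n => decide (G.Adj v j) := by
    rw [List.getD_eq_getElem _ _ (by simp), List.getElem_ofFn]
  have h2 : (List.ofFn fun j : Fin n => decide (G.Adj v j)).getD u.val false =
      decide (G.Adj v u) := by
    rw [List.getD_eq_getElem _ _ (by simp), List.getElem_ofFn]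
  have h3 : ((List.ofFn fun i : Fin n => List.ofFn fun j : Fin n => decide (G.Adj i j)).getD
      v.val []).getD u.val false = true ↔ G.Adj v u := by
    rw [h1, h2]
    simp
  convert h3

theorem sound {n : ℕ} (G : SimpleGraph (Fin n)) (hc : Chordal G) (hb : Balanced G) (k : ℕ)
    (hn : 0 < n)
    (h : ∀ v < n, rds (adjMatrix G) < (k + 1) * cn (adjMatrix G)
      (run (adjMatrix G) k (rds (adjMatrix G))) v) :
    ∃ D : Finset (Fin n), D.card ≤ k ∧ Dominating G D := by
  classical
  set A := adjMatrix G with hA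
  set T := rds A with hT
  have hlen : A.length = n := adj_length G
  have hlt := run_lt (A := A) (k := k) (by omega) T
  set s := run A k T with hs
  have hsl : s.length = T := run_length T
  -- the number of times a vertex is picked
  let a : Fin n → ℕ := fun u => s.count u.val
  have hsum : ∑ u, a u = T := by
    have key : ∀ l : List ℕ, (∀ u ∈ l, u < n) → ∑ u : Fin n, l.count u.val = l.length := by
      intro l
      induction l with
      | nil => intro _; simp
      | cons x l ih =>
        intro hl
        have hx := hl x (by simp)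
        simp only [List.count_cons, List.length_cons]
        rw [Finset.sum_add_distrib, ih (fun u hu => hl u (List.mem_cons_of_mem _ hu))]
        congr 1
        rw [Finset.sum_eq_single (⟨x, hx⟩ : Fin n)]
        · simp
        · intro u _ hu
          have : ¬ x = u.val := fun h => hu (Fin.ext h.symm)
          simp [this]
        · intro h
          exact absurd (Finset.mem_univ _) h
    have := key s (fun u hu => by rw [← hlen]; exact hlt u hu)
    rw [this, hsl]
  have hrow : ∀ v : Fin n, ∑ u ∈ Finset.univ.filter (fun u => Close G v u), a u = cn A s v.val := by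
    intro v
    have key : ∀ l : List ℕ, (∀ u ∈ l, u < n) →
        ∑ u ∈ Finset.univ.filter (fun u : Fin n => Close G v u), l.count u.val = cn A l v.val := by
      intro l
      induction l with
      | nil => intro _; simp [cn]
      | cons x l ih =>
        intro hl
        have hx := hl x (by simp)
        simp only [List.count_cons]
        rw [cn_cons, Finset.sum_add_distrib, ih (fun u hu => hl u (List.mem_cons_of_mem _ hu))]
        congr 1
        have hcl := cl_adj G v ⟨x, hx⟩
        rw [← hA] at hcl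
        simp only at hcl
        by_cases hcx : Close G v ⟨x, hx⟩
        · rw [if_pos (hcl.2 hcx), Finset.sum_eq_single (⟨x, hx⟩ : Fin n)]
          · simp
          · intro u _ hu
            have : ¬ x = u.val := fun h => hu (Fin.ext h.symm)
            simp [this]
          · intro h
            exact absurd (Finset.mem_filter.2 ⟨Finset.mem_univ _, hcx⟩) h
        · rw [if_neg (fun h => hcx (hcl.1 h))]
          refine Finset.sum_eq_zero fun u hu => ?_
          have : ¬ x = u.val := by
            rintro rfl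
            exact hcx (Finset.mem_filter.1 hu).2
          simp [this]
    exact key s (fun u hu => by rw [← hlen]; exact hlt u hu)
  -- the smallest row
  obtain ⟨v0, -, hv0⟩ := Finset.exists_min_image (Finset.univ : Finset (Fin n))
    (fun v => cn A s v.val) ⟨⟨0, hn⟩, Finset.mem_univ _⟩
  have h0 := h v0.val v0.isLt
  have hm : 1 ≤ cn A s v0.val := by
    rcases Nat.eq_zero_or_pos (cn A s v0.val) with h1 | h1
    · rw [h1] at h0
      simp at h0
    · exact h1
  obtain ⟨D, hD, hcard⟩ := round (Fin n) (Fin n) (Close G) (relBalanced_close hc hb) a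
    (cn A s v0.val) hm (fun v => by
      have h2 := hv0 v (Finset.mem_univ _)
      have h3 := hrow v
      refine le_trans h2 (le_of_eq ?_)
      rw [← h3])
  refine ⟨D, ?_, ?_⟩
  · rw [hsum] at hcard
    have h1 : cn A s v0.val * D.card < cn A s v0.val * (k + 1) := by
      rw [Nat.mul_comm (cn A s v0.val) (k + 1)]
      omega
    have := Nat.lt_of_mul_lt_mul_left h1
    omega
  · intro v hv
    obtain ⟨x, hx, hvx⟩ := hD v
    rcases hvx with rfl | hvx
    · exact absurd hx hv
    · exact ⟨x, hx, hvx⟩

theorem alg_correct {n : ℕ} (G : SimpleGraph (Fin n)) (hc : Chordal G) (hb : Balanced G) (k : ℕ) :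
    alg (adjMatrix G, k) = true ↔ ∃ D : Finset (Fin n), D.card ≤ k ∧ Dominating G D := by
  classical
  unfold alg
  simp only [Bool.or_eq_true, decide_eq_true_eq, List.all_eq_true, List.mem_range, adj_length]
  constructor
  · rintro (h | h)
    · refine ⟨Finset.univ, ?_, fun v hv => absurd (Finset.mem_univ v) hv⟩
      rw [Finset.card_univ, Fintype.card_fin]
      exact h
    · by_cases hn : n ≤ k
      · refine ⟨Finset.univ, ?_, fun v hv => absurd (Finset.mem_univ v) hv⟩
        rw [Finset.card_univ, Fintype.card_fin]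
        exact hn
      · exact sound G hc hb k (by omega) h
  · rintro ⟨D, hD, hdom⟩
    by_cases hn : n ≤ k
    · exact Or.inl hn
    · right
      intro v hv
      have hlen : (adjMatrix G).length = n := adj_length G
      refine complete (D.image Fin.val) ?_ (Finset.card_image_le.trans hD) ?_ (by omega) v (by omega)
      · intro u hu
        rw [Finset.mem_image] at hu
        obtain ⟨w, -, rfl⟩ := hu
        rw [hlen]
        exact w.isLt
      · intro v hv
        rw [hlen] at hv
        by_cases h : (⟨v, hv⟩ : Fin n) ∈ D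
        · exact ⟨v, Finset.mem_image.2 ⟨_, h, rfl⟩, (cl_adj G ⟨v, hv⟩ ⟨v, hv⟩).2 (Or.inl rfl)⟩
        · obtain ⟨w, hw, hvw⟩ := hdom _ h
          exact ⟨w.val, Finset.mem_image.2 ⟨_, hw, rfl⟩, (cl_adj G ⟨v, hv⟩ w).2 (Or.inr hvw)⟩

/-! ### Running time -/

variable {α : Type} [TEnc α]

theorem poly_cl {A : α → List (List Bool)} {v u : α → ℕ} (hA : NPC.Poly A) (hv : NPC.Poly v) (hu : NPC.Poly u) :
    NPC.Poly (fun a => cl (A a) (v a) (u a)) := by
  unfold cl
  exact NPC.Poly.or (NPC.Poly.decide_eq hv hu)
    (NPC.Poly.getD (NPC.Poly.getD hA hv (NPC.Poly.const [])) hu (NPC.Poly.const false))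

theorem poly_cn {A : α → List (List Bool)} {s : α → List ℕ} {v : α → ℕ} (hA : NPC.Poly A) (hs : NPC.Poly s)
    (hv : NPC.Poly v) : NPC.Poly (fun a => cn (A a) (s a) (v a)) := by
  unfold cn
  exact NPC.Poly.length (NPC.Poly.filter (p := fun a u => cl (A a) (v a) u) hs
    (poly_cl (hA.comp (NPC.Poly.fst NPC.Poly.id)) (hv.comp (NPC.Poly.fst NPC.Poly.id)) (NPC.Poly.snd NPC.Poly.id)))

theorem poly_wt {A : α → List (List Bool)} {k : α → ℕ} {s : α → List ℕ} {v : α → ℕ} (hA : NPC.Poly A)
    (hk : NPC.Poly k) (hs : NPC.Poly s) (hv : NPC.Poly v) : NPC.Poly (fun a => wt (A a) (k a) (s a) (v a)) := by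
  unfold wt
  exact NPC.Poly.sub (NPC.Poly.length hs) (NPC.Poly.mul hk (poly_cn hA hs hv))

theorem poly_ld {A : α → List (List Bool)} {k : α → ℕ} {s : α → List ℕ} {u : α → ℕ} (hA : NPC.Poly A)
    (hk : NPC.Poly k) (hs : NPC.Poly s) (hu : NPC.Poly u) : NPC.Poly (fun a => ld (A a) (k a) (s a) (u a)) := by
  unfold ld
  exact NPC.Poly.sum (NPC.Poly.map (F := fun a v => wt (A a) (k a) (s a) v)
    (NPC.Poly.filter (p := fun a v => cl (A a) v (u a)) (NPC.Poly.range_length hA)
      (poly_cl (hA.comp (NPC.Poly.fst NPC.Poly.id)) (NPC.Poly.snd NPC.Poly.id) (hu.comp (NPC.Poly.fst NPC.Poly.id))))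
    (poly_wt (hA.comp (NPC.Poly.fst NPC.Poly.id)) (hk.comp (NPC.Poly.fst NPC.Poly.id)) (hs.comp (NPC.Poly.fst NPC.Poly.id))
      (NPC.Poly.snd NPC.Poly.id)))

theorem poly_tot {A : α → List (List Bool)} {k : α → ℕ} {s : α → List ℕ} (hA : NPC.Poly A)
    (hk : NPC.Poly k) (hs : NPC.Poly s) : NPC.Poly (fun a => tot (A a) (k a) (s a)) := by
  unfold tot
  exact NPC.Poly.sum (NPC.Poly.map (F := fun a v => wt (A a) (k a) (s a) v) (NPC.Poly.range_length hA)
    (poly_wt (hA.comp (NPC.Poly.fst NPC.Poly.id)) (hk.comp (NPC.Poly.fst NPC.Poly.id)) (hs.comp (NPC.Poly.fst NPC.Poly.id))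
      (NPC.Poly.snd NPC.Poly.id)))

theorem poly_pk {A : α → List (List Bool)} {k : α → ℕ} {s : α → List ℕ} (hA : NPC.Poly A)
    (hk : NPC.Poly k) (hs : NPC.Poly s) : NPC.Poly (fun a => pk (A a) (k a) (s a)) := by
  unfold pk
  refine NPC.Poly.head?_getD (NPC.Poly.filter (p := fun a u =>
    decide (tot (A a) (k a) (s a) ≤ k a * ld (A a) (k a) (s a) u)) (NPC.Poly.range_length hA) ?_) 0
  have f1 : NPC.Poly (fun p : α × ℕ => A p.1) := hA.comp (NPC.Poly.fst NPC.Poly.id)
  have f2 : NPC.Poly (fun p : α × ℕ => k p.1) := hk.comp (NPC.Poly.fst NPC.Poly.id)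
  have f3 : NPC.Poly (fun p : α × ℕ => s p.1) := hs.comp (NPC.Poly.fst NPC.Poly.id)
  exact NPC.Poly.decide_le (poly_tot f1 f2 f3) (NPC.Poly.mul f2 (poly_ld f1 f2 f3 (NPC.Poly.snd NPC.Poly.id)))

theorem uPoly_rds : UPoly (fun p : List (List Bool) × ℕ => rds p.1) := by
  unfold rds
  have h : UPoly (fun p : List (List Bool) × ℕ => p.1.length) :=
    UPoly.length (NPC.Poly.fst NPC.Poly.id)
  exact UPoly.add (UPoly.mul (UPoly.mul (UPoly.mul (UPoly.mul h h) h) h) h) (UPoly.const 1)

theorem poly_run : NPC.Poly (fun p : List (List Bool) × ℕ => run p.1 p.2 (rds p.1)) := by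
  unfold run
  obtain ⟨r, hr⟩ := (uPoly_rds.toPoly).sz_le
  -- a bound for the number of rounds
  obtain ⟨q, hq⟩ := (NPC.Poly.sz_le uPoly_rds)
  refine NPC.Poly.foldl (l := fun p : List (List Bool) × ℕ => List.range (rds p.1))
    (s := fun _ => ([] : List ℕ)) (F := fun p s _ => pk p.1 p.2 s :: s)
    uPoly_rds.range (NPC.Poly.const []) ?_ (q * (Polynomial.C 4 * Polynomial.X + Polynomial.C 6) +
      Polynomial.C 1) ?_
  · exact NPC.Poly.cons (poly_pk (NPC.Poly.fst (NPC.Poly.fst NPC.Poly.id)) (NPC.Poly.snd (NPC.Poly.fst NPC.Poly.id))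
      (NPC.Poly.fst (NPC.Poly.snd NPC.Poly.id))) (NPC.Poly.fst (NPC.Poly.snd NPC.Poly.id))
  · rintro ⟨A, k⟩ t ht
    simp only [List.length_range] at ht
    simp only
    rw [List.take_range, Nat.min_eq_left ht]
    change sz (run A k t) ≤ _
    have hq' := hq (A, k)
    have h1 : rds A ≤ q.eval (sz (A, k)) := by
      refine le_trans ?_ hq'
      have := length_lt_sz (List.replicate (rds A) ())
      rw [List.length_replicate] at this
      exact this.le
    have hA : A.length ≤ sz (A, k) := by
      have := length_lt_sz A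
      rw [sz_pair]
      omega
    have h2 : ∀ u ∈ run A k t, u ≤ sz (A, k) := by
      intro u hu
      rcases Nat.eq_zero_or_pos A.length with h0 | h0
      · have : u = 0 := by
          clear ht
          induction t with
          | zero => rw [run_zero] at hu; simp at hu
          | succ t ih =>
            rw [run_succ, List.mem_cons] at hu
            rcases hu with rfl | hu
            · unfold pk
              rw [h0]
              simp
            · exact ih hu
        omega
      · have := run_lt (A := A) (k := k) h0 t u hu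
        omega
    have h3 : ∀ u ∈ run A k t, sz u ≤ 4 * sz (A, k) + 5 := by
      intro u hu
      have e1 := sz_nat_le u
      have e2 := NPC.Poly.size_le_self u
      have e3 := h2 u hu
      omega
    refine (sz_le_length_mul _ _ h3).trans ?_
    rw [run_length]
    simp only [Polynomial.eval_add, Polynomial.eval_mul, Polynomial.eval_C, Polynomial.eval_X]
    have : t * (4 * sz (A, k) + 5 + 1) ≤ q.eval (sz (A, k)) * (4 * sz (A, k) + 6) :=
      Nat.mul_le_mul (by omega) (by omega)
    omega

theorem poly_alg : NPC.Poly alg := by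
  unfold alg
  refine NPC.Poly.or (NPC.Poly.decide_le (NPC.Poly.length (NPC.Poly.fst NPC.Poly.id)) (NPC.Poly.snd NPC.Poly.id))
    (NPC.Poly.all (p := fun (p : List (List Bool) × ℕ) v =>
      decide (rds p.1 < (p.2 + 1) * cn p.1 (run p.1 p.2 (rds p.1)) v))
      (NPC.Poly.range_length (NPC.Poly.fst NPC.Poly.id)) ?_)
  have f1 : NPC.Poly (fun p : (List (List Bool) × ℕ) × ℕ => p.1.1) := NPC.Poly.fst (NPC.Poly.fst NPC.Poly.id)
  have f2 : NPC.Poly (fun p : (List (List Bool) × ℕ) × ℕ => p.1.2) := NPC.Poly.snd (NPC.Poly.fst NPC.Poly.id)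
  exact NPC.Poly.decide_lt (uPoly_rds.toPoly.comp (NPC.Poly.fst NPC.Poly.id))
    (NPC.Poly.mul (NPC.Poly.add f2 (NPC.Poly.const 1)) (poly_cn f1 (poly_run.comp (NPC.Poly.fst NPC.Poly.id))
      (NPC.Poly.snd NPC.Poly.id)))

/-- The algorithm on bit strings. -/
def solve (x : List Bool) : List Bool :=
  [((unbits (List (List Bool) × ℕ) x).elim false alg)]

theorem polyTime_solve : PolyTime solve :=
  polyTime_of_poly (NPC.Poly.optElim (h := fun _ p => alg p) poly_unbits (NPC.Poly.const false)
    (poly_alg.comp (NPC.Poly.snd NPC.Poly.id)))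

theorem solve_bits (p : List (List Bool) × ℕ) : solve (bits p) = [alg p] := by
  unfold solve
  rw [unbits_bits]
  rfl

end Pool.Agent.E8helper77.DC
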